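import Pool.Agent.W646.CI.Stm

/-!
# Project CI: the area of the cells
-/

set_option autoImplicit false

namespace Pool.Agent.W392.CI

open MeasureTheory Filter Topology Set Pool.Agent.W646.CI

theorem area (φ : ℝ → ℝ) (hφ : Measurable φ) (a b c d : ℝ) :
    volume {s : ℂ | a ≤ s.re ∧ s.re < b ∧ c ≤ s.im - φ s.re ∧ s.im - φ s.re < d} =
      ENNReal.ofReal (d - c) * ENNReal.ofReal (b - a) := by
  set S : Set (ℝ × ℝ) := {p | a ≤ p.1 ∧ p.1 < b ∧ c ≤ p.2 - φ p.1 ∧ p.2 - φ p.1 < d} with hS
  have hm : Measurable fun p : ℝ × ℝ => p.2 - φ p.1 := measurable_snd.sub (hφ.comp measurable_fst)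
  have hSm : MeasurableSet S := by
    refine MeasurableSet.inter (measurableSet_le measurable_const measurable_fst) ?_
    refine MeasurableSet.inter (measurableSet_lt measurable_fst measurable_const) ?_
    exact MeasurableSet.inter (measurableSet_le measurable_const hm)
      (measurableSet_lt hm measurable_const)
  have h1 : {s : ℂ | a ≤ s.re ∧ s.re < b ∧ c ≤ s.im - φ s.re ∧ s.im - φ s.re < d} =
      Complex.measurableEquivRealProd ⁻¹' S := rfl
  rw [h1, Complex.volume_preserving_equiv_real_prod.measure_preimage hSm.nullMeasurableSet,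
    Measure.volume_eq_prod, Measure.prod_apply hSm]
  have h2 : ∀ x : ℝ, volume (Prod.mk x ⁻¹' S) =
      (Ico a b).indicator (fun _ => ENNReal.ofReal (d - c)) x := by
    intro x
    by_cases hx : x ∈ Ico a b
    · rw [indicator_of_mem hx]
      have h3 : Prod.mk x ⁻¹' S = Ico (c + φ x) (d + φ x) := by
        ext y
        simp only [mem_preimage, hS, mem_Ico]
        constructor
        · rintro ⟨_, _, h4, h5⟩
          constructor <;> linarith
        · rintro ⟨h4, h5⟩
          exact ⟨hx.1, hx.2, by linarith, by linarith⟩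
      rw [h3, Real.volume_Ico]
      congr 1
      ring
    · rw [indicator_of_notMem hx]
      have h3 : Prod.mk x ⁻¹' S = ∅ := by
        ext y
        simp only [mem_preimage, hS, mem_empty_iff_false, iff_false]
        rintro ⟨h4, h5, _⟩
        exact hx ⟨h4, h5⟩
      rw [h3, measure_empty]
  simp only [h2]
  rw [lintegral_indicator measurableSet_Ico, setLIntegral_const, Real.volume_Ico]

theorem t_AREA : S_AREA := by
  intro K _ m i l
  have hL : (0 : ℝ) < (LL K m : ℝ) := by
    unfold LL
    positivity
  have h := area (fun t => 8 * t ^ (K - 1)) (by fun_prop) ((m : ℝ) + i / LL K m)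
    ((m : ℝ) + (i + 1) / LL K m) (-Real.pi + 2 * Real.pi * l / LL K m)
    (-Real.pi + 2 * Real.pi * (l + 1) / LL K m)
  unfold cell
  rw [h, ← ENNReal.ofReal_mul]
  · congr 1
    field_simp
    ring
  · have : -Real.pi + 2 * Real.pi * (l + 1) / LL K m - (-Real.pi + 2 * Real.pi * l / LL K m) =
        2 * Real.pi / LL K m := by
      field_simp
      ring
    rw [this]
    positivity

end Pool.Agent.W392.CI
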